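import Pool.Agent.Q278.GF.M

/-!
# The large-scale fluctuations of the gaps between the zeta zeros are Gaussian, with the GUE
covariance, without any hypothesis

Let `δ_n` be the unfolded gaps between the ordinates of the nontrivial zeta zeros, and look at the
two-sided sequence `ω = seen n` of the gaps from the `n`-th zero, `n` uniform in `1, …, N`.  For a
smooth function `f` of compact support on the line and a length `L` let

  `lin f L ω = ∑_k f(k/L) (ω_k - 1)`,

a linear statistic of about `L` gaps (there is no normalisation: for independent gaps its variance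
would be of the order `L`).  Nothing is assumed.

(1) The vector of the statistics of several test functions converges in law, as `N → ∞` and then
`L → ∞`, to the centred Gaussian vector with covariance `∫ |ξ| Re(𝓕 f(ξ) conj 𝓕 g(ξ)) dξ`, which is
the covariance for the gaps of the sine process (GUE).  It holds, uniformly, for every limit process
of the gaps (every weak limit as `N → ∞` along a sequence), and for finite large `N`.

(2) For a single `f ≠ 0` the variance is positive, and the distribution functions converge.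

So, whatever the limit processes of the gaps are, all of them have the same large-scale fluctuations,
with the GUE covariance and Gaussian law.

Proof.  The central limit theorem for the linear statistics of the zeros seen from a random height
`t` at mesoscopic scales (`MP_f58427_nt.MesoscopicCLT`) is used at scales `L` tending to infinity
arbitrarily slowly.  Summation by parts turns `lin f L` into a sum over the counts of the zeros at
distance up to `O(L)`, and the number variance, of the order `log L`, allows one to replace the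
position of the `k`-th zero from `t` by its mean position (with an error tending to zero in mean), and
to go from a random height to a random zero.
-/

set_option autoImplicit false

open Filter Topology MeasureTheory ProbabilityTheory
open scoped FourierTransform ContDiff ComplexConjugate BoundedContinuousFunction

namespace Pool.Agent.Results.MP_7eacff_nt.GaussianFluctuations

/-- multiplicity of `s` as a zero of the Riemann zeta function (order of vanishing at `s`) -/
noncomputable def zmult (s : ℂ) : ℕ := analyticOrderNatAt riemannZeta s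

/-- the number of nontrivial zeros of `ζ` with ordinate in `(0, t]`, with multiplicity -/
noncomputable def NZ (t : ℝ) : ℕ :=
  ∑ᶠ s ∈ {s : ℂ | riemannZeta s = 0 ∧ 0 < s.re ∧ s.re < 1 ∧ 0 < s.im ∧ s.im ≤ t}, zmult s

/-- for `n ≥ 1`: the `n`-th positive ordinate `γ n` of a nontrivial zero of `ζ`, the ordinates being
listed in nondecreasing order and repeated according to multiplicity -/
noncomputable def γ (n : ℕ) : ℝ := sInf {t : ℝ | n ≤ NZ t}

/-- the unfolded gaps `δ_n = (γ_{n+1} - γ_n) / 2π * log (γ_n / 2π)` -/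
noncomputable def δ (n : ℕ) : ℝ :=
  (γ (n + 1) - γ n) / (2 * Real.pi) * Real.log (γ n / (2 * Real.pi))

/-- the gaps seen from the `n`-th zero: the two-sided sequence with `k`-th term `δ_{n+k}` (and `0`
when `n + k < 1`) -/
noncomputable def seen (n : ℕ) : ℤ → ℝ :=
  fun k => if 1 ≤ (n : ℤ) + k then δ ((n : ℤ) + k).toNat else 0

/-- the limit processes: the probability measures `P` on two-sided sequences such that, along some
sequence of `N` tending to infinity, the law of the gaps seen from the `n`-th zero, `n` uniform in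
`1, …, N`, converges weakly to `P` -/
def limits : Set (ProbabilityMeasure (ℤ → ℝ)) :=
  {P | ∃ φ : ℕ → ℕ, StrictMono φ ∧ ∀ g : BoundedContinuousFunction (ℤ → ℝ) ℝ,
    Tendsto (fun j => (∑ n ∈ Finset.Icc 1 (φ j), g (seen n)) / (φ j : ℝ)) atTop
      (𝓝 (∫ q, g q ∂(P : Measure (ℤ → ℝ))))}

/-- the linear statistic `∑_k f(k/L) (q_k - 1)` of a sequence of gaps -/
noncomputable def lin (f : ℝ → ℝ) (L : ℝ) (q : ℤ → ℝ) : ℝ :=
  ∑ᶠ k : ℤ, f ((k : ℝ) / L) * (q k - 1)

/-- the limiting covariance -/
noncomputable def cov (f g : ℝ → ℝ) : ℝ :=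
  ∫ ξ : ℝ, |ξ| * (𝓕 (fun x => (f x : ℂ)) ξ * conj (𝓕 (fun x => (g x : ℂ)) ξ)).re

/-- **Gaussian fluctuations of the gaps.** -/
theorem result :
    (∀ (k : ℕ) (f : Fin k → ℝ → ℝ), (∀ j, ContDiff ℝ ∞ (f j) ∧ HasCompactSupport (f j)) →
      (Matrix.of fun i j => cov (f i) (f j)).PosSemidef ∧
      ∀ Φ : EuclideanSpace ℝ (Fin k) →ᵇ ℝ, ∀ ε : ℝ, 0 < ε → ∃ L0 : ℝ, 1 ≤ L0 ∧ ∀ L : ℝ, L0 ≤ L →
        (∀ P ∈ limits,
          |∫ q, Φ (WithLp.toLp 2 fun j => lin (f j) L q) ∂(P : Measure (ℤ → ℝ)) -
            ∫ x, Φ x ∂(multivariateGaussian 0 (Matrix.of fun i j => cov (f i) (f j)))| ≤ ε) ∧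
        ∀ᶠ N : ℕ in atTop,
          |(∑ n ∈ Finset.Icc 1 N, Φ (WithLp.toLp 2 fun j => lin (f j) L (seen n))) / (N : ℝ) -
            ∫ x, Φ x ∂(multivariateGaussian 0 (Matrix.of fun i j => cov (f i) (f j)))| ≤ ε) ∧
    (∀ f : ℝ → ℝ, ContDiff ℝ ∞ f → HasCompactSupport f → f ≠ 0 → 0 < cov f f ∧
      ∀ y ε : ℝ, 0 < ε → ∃ L0 : ℝ, 1 ≤ L0 ∧ ∀ L : ℝ, L0 ≤ L →
        (∀ P ∈ limits, |(P : Measure (ℤ → ℝ)).real {q | lin f L q ≤ y} -
          (gaussianReal 0 (cov f f).toNNReal).real (Set.Iic y)| ≤ ε) ∧
        ∀ᶠ N : ℕ in atTop,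
          |(((Finset.Icc 1 N).filter fun n => lin f L (seen n) ≤ y).card : ℝ) / N -
            (gaussianReal 0 (cov f f).toNNReal).real (Set.Iic y)| ≤ ε) := by
  refine ⟨fun k f hf => ⟨?_, fun Φ ε hε => ?_⟩, fun f h1 h2 h0 => ⟨?_, fun y ε hε => ?_⟩⟩
  · exact Q278.MC.cm_pos fun j => Q278.GF.cc_of (hf j).1 (hf j).2
  · obtain ⟨L1, hL1, h1⟩ := Q278.GF.lim_weak hf Φ ε hε
    obtain ⟨L2, hL2, h2⟩ := Q278.GF.emp_weak hf Φ ε hε
    refine ⟨max L1 L2, hL1.trans (le_max_left _ _), fun L hL => ⟨fun P hP => ?_, ?_⟩⟩
    · exact h1 L ((le_max_left _ _).trans hL) P hP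
    · exact h2 L ((le_max_right _ _).trans hL)
  · exact Q278.MC.cv_pos (Q278.GF.cc_of h1 h2) h0
  · exact Q278.GF.cdf_lim h1 h2 h0 y ε hε

end Pool.Agent.Results.MP_7eacff_nt.GaussianFluctuations
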