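import Pool.Agent.Q278.MX.AJ
import Pool.Agent.Q278.GF.K

/-!
# The largest deviations and the multifractal spectrum of the sums of the gaps between zeta zeros

Let `δ_n` be the unfolded gaps between the ordinates of the nontrivial zeta zeros, and look at the
two-sided sequence `ω = seen n` of the gaps from the `n`-th zero, `n` uniform in `1, …, N`.  Let

  `S ω k = ∑_{0 ≤ i < k} (ω_i - 1)`,

so that `S (seen n) k` is the deviation of the (unfolded) distance between the `n`-th and the
`(n + k)`-th zero from its mean value `k`.  The Riemann hypothesis is assumed, nothing else.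

(1) For every `ε > 0` there is a `c > 0` such that for all large `K`, all `N` with `K⁴ ≤ log N` and
all but at most `N K^(-c)` of the `n ≤ N`: the sums `S (seen n) k`, `1 ≤ k ≤ K`, are at most
`(1/π + ε) log K` in absolute value, and for all `α ∈ [0, 1 - ε]` the number of `k ≤ K` with
`S (seen n) k ≥ (α/π) log K` is `K^(1 - α² ± ε)`, and similarly for `S (seen n) k ≤ -(α/π) log K`.
In particular the maximum and the minimum over `k ≤ K` are `± (1/π ± ε) log K`.  Every limit process
of the gaps (every weak limit as `N → ∞` along a sequence) has the same property with probability at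
least `1 - K^(-c)`.

(2) For every limit process, almost surely: the maximum of `S k` over `k ≤ K` is asymptotic to
`(1/π) log K`, the minimum to `-(1/π) log K`, the upper and lower limits of `S k / log k` are `1/π`
and `-1/π`, and the number of the `k ≤ K` with `S k ≥ (α/π) log K` is `K^(1 - α² + o(1))` for
`0 ≤ α < 1`, and similarly for `S k ≤ -(α/π) log K`.

These are the values for the sine process (GUE).

Proof.  At a random height `t` the number of zeros between `t` and `t + x` (`x ≤ 3 K` in units of the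
mean gap) minus `x` is, up to `δ log K` outside a set of measure `K^(-1/2)`, the difference of the
values at `x` and at `0` of a field, a Dirichlet polynomial over the primes `p` with
`K^(μ - 1) ≤ log p / log T ≤ K^(-μ)`: explicit formula, band-limited majorants and minorants of an
interval, and tail bounds for Dirichlet polynomials.  The field is cut into `n` bands of equal
variance.  The upper bounds come from the tails at one point.  For the lower bounds the `x ≤ K / 2`
are counted with Gaussian weights, which force every band to take the share `1 / n` of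
`(α/π) log K`; the first two moments of this count are computed from the characteristic functions of
Dirichlet polynomials with explicit error terms, and since the bands of two points decorrelate one
after the other the second moment is `1 + O(K^(-c))` times the square of the first.  The passage from
random heights to zeros uses that a typical zero has a typical height just below it, and the passage
to the limit processes that the typical behaviour is (almost) a closed condition; (2) is the
Borel-Cantelli lemma along the powers of two.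
-/

set_option autoImplicit false

open Filter Topology MeasureTheory ProbabilityTheory

namespace Pool.Agent.Results.MP_7eacff_nt.MaximumAndThickPoints

/-- multiplicity of `s` as a zero of the Riemann zeta function (order of vanishing at `s`) -/
noncomputable def zmult (s : ℂ) : ℕ := analyticOrderNatAt riemannZeta s

/-- the number of nontrivial zeros of `ζ` with ordinate in `(0, t]`, with multiplicity -/
noncomputable def NZ (t : ℝ) : ℕ :=
  ∑ᶠ s ∈ {s : ℂ | riemannZeta s = 0 ∧ 0 < s.re ∧ s.re < 1 ∧ 0 < s.im ∧ s.im ≤ t}, zmult s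

/-- for `n ≥ 1`: the `n`-th positive ordinate `γ n` of a nontrivial zero of `ζ`, the ordinates being
listed in nondecreasing order and repeated according to multiplicity -/
noncomputable def γ (n : ℕ) : ℝ := sInf {t : ℝ | n ≤ NZ t}

/-- the unfolded gaps `δ_n = (γ_{n+1} - γ_n) / 2π * log (γ_n / 2π)` -/
noncomputable def δ (n : ℕ) : ℝ :=
  (γ (n + 1) - γ n) / (2 * Real.pi) * Real.log (γ n / (2 * Real.pi))

/-- the gaps seen from the `n`-th zero: the two-sided sequence with `k`-th term `δ_{n+k}` (and `0`
when `n + k < 1`) -/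
noncomputable def seen (n : ℕ) : ℤ → ℝ :=
  fun k => if 1 ≤ (n : ℤ) + k then δ ((n : ℤ) + k).toNat else 0

/-- the limit processes: the probability measures `P` on two-sided sequences such that, along some
sequence of `N` tending to infinity, the law of the gaps seen from the `n`-th zero, `n` uniform in
`1, …, N`, converges weakly to `P` -/
def limits : Set (ProbabilityMeasure (ℤ → ℝ)) :=
  {P | ∃ φ : ℕ → ℕ, StrictMono φ ∧ ∀ g : BoundedContinuousFunction (ℤ → ℝ) ℝ,
    Tendsto (fun j => (∑ n ∈ Finset.Icc 1 (φ j), g (seen n)) / (φ j : ℝ)) atTop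
      (𝓝 (∫ q, g q ∂(P : Measure (ℤ → ℝ))))}

/-- the sum of the first `k` centred gaps `q_0 - 1, …, q_{k-1} - 1` -/
noncomputable def S (q : ℤ → ℝ) (k : ℕ) : ℝ := ∑ i ∈ Finset.range k, (q i - 1)

/-- the number of the `k` with `1 ≤ k ≤ K` such that `p k` -/
noncomputable def num (K : ℕ) (p : ℕ → Prop) : ℝ := ({k : ℕ | 1 ≤ k ∧ k ≤ K ∧ p k}.ncard : ℝ)

/-- the typical behaviour of the sums up to length `K`, with an error `ε` in the exponents -/
def Typical (q : ℤ → ℝ) (ε : ℝ) (K : ℕ) : Prop :=
  (∀ k : ℕ, 1 ≤ k → k ≤ K → |S q k| ≤ (1 / Real.pi + ε) * Real.log K) ∧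
  ∀ α : ℝ, 0 ≤ α → α ≤ 1 - ε →
    num K (fun k => α / Real.pi * Real.log K ≤ |S q k|) ≤ (K : ℝ) ^ (1 - α ^ 2 + ε) ∧
    (K : ℝ) ^ (1 - α ^ 2 - ε) ≤ num K (fun k => α / Real.pi * Real.log K ≤ S q k) ∧
    (K : ℝ) ^ (1 - α ^ 2 - ε) ≤ num K (fun k => S q k ≤ -(α / Real.pi * Real.log K))

lemma num_eq (K : ℕ) (p : ℕ → Prop) [DecidablePred p] :
    num K p = ((((Finset.Icc 1 K).filter p).card : ℕ) : ℝ) := by
  unfold num
  rw [← Set.ncard_coe_finset]
  congr 2
  ext k
  simp only [Finset.coe_filter, Finset.mem_Icc, Set.mem_ofPred_eq, and_assoc]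

lemma typical_iff {q : ℤ → ℝ} {ε : ℝ} {K : ℕ} : Typical q ε K ↔ Q278.MX.Cs (Q278.MX.Sw q) ε K := by
  unfold Typical Q278.MX.Cs
  simp only [num_eq, Finset.mem_Icc, and_imp]
  rfl

/-- **The maximum, the minimum and the multifractal spectrum of the sums of the gaps.** -/
theorem result (RH : RiemannHypothesis) :
    (∀ ε : ℝ, 0 < ε → ε ≤ 1 → ∃ (c : ℝ) (K0 : ℕ), 0 < c ∧ ∀ K : ℕ, K0 ≤ K →
      (∀ N : ℕ, (K : ℝ) ^ 4 ≤ Real.log N →
        num N (fun n => ¬Typical (seen n) ε K) ≤ N * (K : ℝ) ^ (-c)) ∧
      ∀ P ∈ limits, (P : Measure (ℤ → ℝ)).real {q | ¬Typical q ε K} ≤ (K : ℝ) ^ (-c)) ∧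
    limits.Nonempty ∧
    ∀ P ∈ limits, ∀ᵐ q ∂(P : Measure (ℤ → ℝ)),
      (∀ ε : ℝ, 0 < ε → ε ≤ 1 → ∀ᶠ K : ℕ in atTop, Typical q ε K) ∧
      Tendsto (fun K : ℕ => sSup (S q '' Set.Icc 1 K) / Real.log K) atTop (𝓝 (1 / Real.pi)) ∧
      Tendsto (fun K : ℕ => sInf (S q '' Set.Icc 1 K) / Real.log K) atTop (𝓝 (-(1 / Real.pi))) ∧
      limsup (fun k : ℕ => S q k / Real.log k) atTop = 1 / Real.pi ∧
      liminf (fun k : ℕ => S q k / Real.log k) atTop = -(1 / Real.pi) ∧
      ∀ α : ℝ, 0 ≤ α → α < 1 →
        Tendsto (fun K : ℕ => Real.log (num K fun k => α / Real.pi * Real.log K ≤ S q k) / Real.log K)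
          atTop (𝓝 (1 - α ^ 2)) ∧
        Tendsto (fun K : ℕ => Real.log (num K fun k => S q k ≤ -(α / Real.pi * Real.log K)) / Real.log K)
          atTop (𝓝 (1 - α ^ 2)) := by
  classical
  have hseen : ∀ {ε : ℝ} {K n : ℕ}, 1 ≤ n → (¬Typical (seen n) ε K ↔ ¬Q278.MX.Pall ε K n) := by
    intro ε K n hn
    rw [typical_iff]
    have e : ∀ k, Q278.MX.Sw (seen n) k = Q278.MX.Sk n k := fun k => Q278.MX.Sw_seen hn k
    unfold Q278.MX.Cs Q278.MX.Pall
    simp only [e]
  refine ⟨fun ε hε hε1 => ?_, ?_, fun P hP => ?_⟩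
  · obtain ⟨c1, K1, hc1, h1⟩ := Q278.MX.rate_all RH hε hε1
    obtain ⟨c2, K2, hc2, h2⟩ := Q278.MX.lim_rate' RH hε hε1
    refine ⟨min c1 c2, max (max ⌈K1⌉₊ K2) 1, lt_min hc1 hc2, fun K hK => ⟨fun N hN => ?_, fun P hP => ?_⟩⟩
    · have hK1 : K1 ≤ K := (Nat.le_ceil K1).trans
        (by exact_mod_cast ((le_max_left _ _).trans (le_max_left _ _)).trans hK)
      have hK : (1 : ℝ) ≤ K := by exact_mod_cast (le_max_right _ _).trans hK
      rw [num_eq]
      have h3 := h1 K hK1 N hN ((Finset.Icc 1 N).filter fun n => ¬Typical (seen n) ε K) (fun n hn => by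
        rw [Finset.mem_filter, Finset.mem_Icc] at hn
        exact ⟨hn.1.1, hn.1.2, (hseen hn.1.1).1 hn.2⟩)
      refine h3.trans (mul_le_mul_of_nonneg_left ?_ (Nat.cast_nonneg N))
      exact Real.rpow_le_rpow_of_exponent_le hK (by linarith [min_le_left c1 c2])
    · have hK2 : K2 ≤ K := ((le_max_right _ _).trans (le_max_left _ _)).trans hK
      have hK : (1 : ℝ) ≤ K := by exact_mod_cast (le_max_right _ _).trans hK
      have h3 := h2 K hK2 P hP
      have e : {q | ¬Typical q ε K} = {q | ¬Q278.MX.Cs (Q278.MX.Sw q) ε K} := by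
        ext q
        exact not_congr typical_iff
      rw [e]
      refine h3.trans ?_
      exact Real.rpow_le_rpow_of_exponent_le hK (by linarith [min_le_right c1 c2])
  · obtain ⟨P, _, ψ, hψ, hlim⟩ := (Q172.ZetaLim.tight_compact _ Q278.GF.dl_tight).tendsto_subseq
      (x := fun j => Q172.ZetaLim.law (Q172.ZetaLim.seen Q278.GF.dl) j) fun j => subset_closure ⟨j, rfl⟩
    exact ⟨P, (Q172.ZetaLim.isLim_iff _ _).2 (MapClusterPt.of_comp hψ.tendsto_atTop hlim.mapClusterPt)⟩
  · filter_upwards [Q278.MX.lim_ae' RH hP] with q hq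
    have e : ∀ k, Q278.MX.Sw q k = S q k := fun k => rfl
    have e' : Q278.MX.Sw q = S q := rfl
    rw [e'] at hq
    refine ⟨fun ε hε hε1 => (hq ε hε hε1).mono fun K hK => typical_iff.2 hK, Q278.MX.sup_tendsto hq,
      Q278.MX.inf_tendsto hq, Q278.MX.limsup_one hq, Q278.MX.liminf_one hq, fun α hα hα1 => ⟨?_, ?_⟩⟩
    · refine (Q278.MX.thick_tendsto hq hα hα1).congr fun K => ?_
      rw [num_eq]
    · refine (Q278.MX.thick_tendsto (x := fun k => -S q k)
        (fun ε hε hε1 => (hq ε hε hε1).mono fun K hK => hK.neg) hα hα1).congr fun K => ?_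
      rw [num_eq]
      congr 4
      exact Finset.filter_congr fun k _ => le_neg

end Pool.Agent.Results.MP_7eacff_nt.MaximumAndThickPoints
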