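import Pool.Agent.Q172.PS.Fin

/-!
# The power spectrum of the gaps between the zeta zeros (`1/f` noise), without any hypothesis

Let `δ_n` be the unfolded gaps between the ordinates of the nontrivial zeta zeros.  Nothing is
assumed (not even the Riemann hypothesis).

(1) The low frequencies of the power spectrum.  The mean over the frequencies `0 < f ≤ F` of
`(1/N) |∑_{n ≤ N} (δ_n - 1) e(n f)|²` is `F/2` up to a factor `1 + o(1)`, when `N → ∞` and then
`F → 0`.  So the power spectrum of the gaps is `S(f) = f` at low frequencies (for independent gaps it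
would be a constant, for the sine process with parameter `β` it would be `2 f / β`), and the
displacements of the zeros from their mean positions are a `1/f` noise with the constant
`1/(4 π² f)` of the GUE.

(2) The inverse square law.  The covariances `r(k)` of gaps at distance `k` are `-1/(2 π² k²)` on the
average over `k` of the order `L`, `L → ∞`: the leading term for the GUE.

(3) All the joint moments, and all the means of continuous functions of polynomial growth, of the
smooth sums of the gaps over long windows (without normalisation) converge to those of the Gaussian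
vector with the GUE covariance `∫ |ξ| Re(𝓕 f(ξ) conj 𝓕 g(ξ)) dξ`.

Proof.  Moments of the linear statistics of the zeros at all scales up to a constant times `log T`
(`MP_67227b_nt.MomentsAtAllLevels`) bound all the moments of the gaps, and, with a dyadic
decomposition of the sharp cut-off, all the moments of the sums of `L` consecutive gaps (by powers of
`log L`); so all the functions of polynomial growth of finitely many gaps have convergent means at
the limit processes of the gaps, and the limit processes have power spectra.  Along any sequence of limit processes and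
scales the Gaussian limit theorem (`MP_7eacff_nt.GaussianFluctuations`), now with second moments, and
the theorem of Paul Levy for the rescaled spectra multiplied by `|TF g|²` identify the limit of the
power spectra near zero, hence (1) for the limit processes, uniformly.  The covariances in (2) are
Fourier transforms of the spectra; large frequencies are controlled by three summations by parts.
Finally the compactness of the set of the limit processes and the approximation of continuous
functions by cosine polynomials bring everything back to the periodogram of the actual gaps.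
-/

set_option autoImplicit false

open Filter Topology MeasureTheory ProbabilityTheory
open scoped FourierTransform ContDiff ComplexConjugate

namespace Pool.Agent.Results.MP_7eacff_nt.PowerSpectrum

/-- multiplicity of `s` as a zero of the Riemann zeta function (order of vanishing at `s`) -/
noncomputable def zmult (s : ℂ) : ℕ := analyticOrderNatAt riemannZeta s

/-- the number of nontrivial zeros of `ζ` with ordinate in `(0, t]`, with multiplicity -/
noncomputable def NZ (t : ℝ) : ℕ :=
  ∑ᶠ s ∈ {s : ℂ | riemannZeta s = 0 ∧ 0 < s.re ∧ s.re < 1 ∧ 0 < s.im ∧ s.im ≤ t}, zmult s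

/-- for `n ≥ 1`: the `n`-th positive ordinate `γ n` of a nontrivial zero of `ζ`, the ordinates being
listed in nondecreasing order and repeated according to multiplicity -/
noncomputable def γ (n : ℕ) : ℝ := sInf {t : ℝ | n ≤ NZ t}

/-- the unfolded gaps `δ_n = (γ_{n+1} - γ_n) / 2π * log (γ_n / 2π)` -/
noncomputable def δ (n : ℕ) : ℝ :=
  (γ (n + 1) - γ n) / (2 * Real.pi) * Real.log (γ n / (2 * Real.pi))

/-- the empirical covariance of gaps at distance `k` -/
noncomputable def r (N k : ℕ) : ℝ := (∑ n ∈ Finset.Icc 1 N, (δ n - 1) * (δ (n + k) - 1)) / (N : ℝ)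

/-- the gaps seen from the `n`-th zero: the two-sided sequence with `k`-th term `δ_{n+k}` (and `0`
when `n + k < 1`) -/
noncomputable def seen (n : ℕ) : ℤ → ℝ :=
  fun k => if 1 ≤ (n : ℤ) + k then δ ((n : ℤ) + k).toNat else 0

/-- the linear statistic `∑_k f(k/L) (q_k - 1)` of a sequence of gaps -/
noncomputable def lin (f : ℝ → ℝ) (L : ℝ) (q : ℤ → ℝ) : ℝ :=
  ∑ᶠ k : ℤ, f ((k : ℝ) / L) * (q k - 1)

/-- the limiting covariance -/
noncomputable def cov (f g : ℝ → ℝ) : ℝ :=
  ∫ ξ : ℝ, |ξ| * (𝓕 (fun x => (f x : ℂ)) ξ * conj (𝓕 (fun x => (g x : ℂ)) ξ)).re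

/-- **The power spectrum of the gaps.** -/
theorem result :
    (∀ ε : ℝ, 0 < ε → ∃ F0 : ℝ, 0 < F0 ∧ ∀ F : ℝ, 0 < F → F ≤ F0 → ∀ᶠ N : ℕ in atTop,
      |(∫ f in (0 : ℝ)..F, ‖∑ n ∈ Finset.Icc 1 N, ((δ n - 1 : ℝ) : ℂ) *
        Complex.exp (2 * Real.pi * Complex.I * ((n : ℂ) * (f : ℂ)))‖ ^ 2) / (N : ℝ) - F ^ 2 / 2| ≤
          ε * F ^ 2) ∧
    (∀ φ : ℝ → ℝ, ContDiff ℝ ∞ φ → HasCompactSupport φ → (∃ a : ℝ, 0 < a ∧ ∀ t, t ≤ a → φ t = 0) →
      ∀ ε : ℝ, 0 < ε → ∃ L0 : ℝ, 1 ≤ L0 ∧ ∀ L : ℝ, L0 ≤ L → ∀ᶠ N : ℕ in atTop,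
        |L * (∑ᶠ k : ℕ, φ ((k : ℝ) / L) * r N k) +
          1 / (2 * Real.pi ^ 2) * ∫ t : ℝ, φ t / t ^ 2| ≤ ε) ∧
    (∀ (k : ℕ) (f : Fin k → ℝ → ℝ), (∀ j, ContDiff ℝ ∞ (f j) ∧ HasCompactSupport (f j)) →
      (Matrix.of fun i j => cov (f i) (f j)).PosSemidef ∧
      ∀ Φ : EuclideanSpace ℝ (Fin k) → ℝ, Continuous Φ →
      (∃ (A : ℝ) (m : ℕ), ∀ x, |Φ x| ≤ A * (1 + ‖x‖) ^ m) →
      ∀ ε : ℝ, 0 < ε → ∃ L0 : ℝ, 1 ≤ L0 ∧ ∀ L : ℝ, L0 ≤ L → ∀ᶠ N : ℕ in atTop,
        |(∑ n ∈ Finset.Icc 1 N, Φ (WithLp.toLp 2 fun j => lin (f j) L (seen n))) / (N : ℝ) -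
          ∫ x, Φ x ∂(multivariateGaussian 0 (Matrix.of fun i j => cov (f i) (f j)))| ≤ ε) := by
  refine ⟨fun ε hε => ?_, fun φ h1 h2 ⟨a, ha, h0⟩ ε hε => ?_,
    fun k f hf => ⟨?_, fun Φ hΦ ⟨A, m, hb⟩ ε hε => ?_⟩⟩
  · exact Q172.PS.fin_period hε
  · exact Q172.PS.fin_inverse h1 h2 ha h0 hε
  · exact Q278.MC.cm_pos fun j => Q278.GF.cc_of (hf j).1 (hf j).2
  · exact Q172.PS.fin_poly hf hΦ hb hε

end Pool.Agent.Results.MP_7eacff_nt.PowerSpectrum
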