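import Pool.Agent.Q276.UR.C1
import Pool.Agent.Q276.UR.D3

/-!
# Rigidity of the gaps between the zeta zeros, without any hypothesis

Let `δ_n` be the unfolded gaps between the ordinates of the nontrivial zeta zeros.  The Riemann
hypothesis is not assumed (nor anything else).  The first part of the theorem says that the gaps
are linearly rigid, as the GUE hypothesis predicts (the sine process is number rigid by Ghosh): the
sum of `K` consecutive gaps is, up to an error which tends to zero in the mean as `R = 2^J` tends to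
infinity, an explicit linear function of the `2 R` gaps outside of the block.  For one gap (`K = 1`)
the mean error is `O((log R)^(-1/2))`.  The second part says that gaps at some bounded distance are
negatively correlated.

Proof.  Let `Φ_J(x) = (1/J) ∑_{j ≤ J} max(0, 1 - |x|/2^j)`.  Montgomery's theorem (form factor
`|α|` for `|α| < 1`), in the version for the ordinates which needs no hypothesis, applied to the
square of the Fourier transform of `Φ_J` (cut off at `|α| = 1`), shows that `∑_m Φ_J(x - y_m) - ∫ Φ_J`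
is small on average over `x`, since the dyadic averaging makes `∫ |α| |Φ_J^(α)|² dα` of order `1/J`;
a local argument gives the same at the points `x = y_n`.  As `x ↦ max(0, 1 - |x|)` is convex on each
side, one gets a lower bound for the weighted sum of the gaps around the `n`-th one in terms of
`∑_m Φ_J(y_n - y_m)`, and the mean of these weighted sums is zero, whence the upper bound in the
mean.  For the second part one needs moreover that the gaps are not concentrated at their mean: by
Poisson summation this would force the pair sums of the Fejer kernel to be close to those of the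
integers, against Montgomery's theorem.
-/

set_option autoImplicit false

open Filter

namespace Pool.Agent.Results.MP_7eacff_nt.UnconditionalRigidity

/-- multiplicity of `s` as a zero of the Riemann zeta function (order of vanishing at `s`) -/
noncomputable def zmult (s : ℂ) : ℕ := analyticOrderNatAt riemannZeta s

/-- the number of nontrivial zeros of `ζ` with ordinate in `(0, t]`, with multiplicity -/
noncomputable def NZ (t : ℝ) : ℕ :=
  ∑ᶠ s ∈ {s : ℂ | riemannZeta s = 0 ∧ 0 < s.re ∧ s.re < 1 ∧ 0 < s.im ∧ s.im ≤ t}, zmult s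

/-- for `n ≥ 1`: the `n`-th positive ordinate `γ n` of a nontrivial zero of `ζ`, the ordinates being
listed in nondecreasing order and repeated according to multiplicity -/
noncomputable def γ (n : ℕ) : ℝ := sInf {t : ℝ | n ≤ NZ t}

/-- the unfolded gaps `δ_n = (γ_{n+1} - γ_n) / 2π * log (γ_n / 2π)` -/
noncomputable def δ (n : ℕ) : ℝ :=
  (γ (n + 1) - γ n) / (2 * Real.pi) * Real.log (γ n / (2 * Real.pi))

/-- the weights `w_J(k) = (1/J) ∑_{j=1}^J max(0, 1 - k/2^j)`; here `w_J(0) = 1` and `w_J(k) = 0`
for `k ≥ 2^J` -/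
noncomputable def w (J k : ℕ) : ℝ :=
  (1 / J : ℝ) * ∑ j ∈ Finset.Icc 1 J, max 0 (1 - (k : ℝ) / 2 ^ j)

/-- the weight, for a block of `K` consecutive gaps, of the `k`-th gap before and of the `k`-th gap
after the block: `u_{J,K}(k) = (w_J(k) + w_J(k+1) + … + w_J(k+K-1)) / K`, so `u_{J,1} = w_J` -/
noncomputable def u (J K k : ℕ) : ℝ := (1 / K : ℝ) * ∑ i ∈ Finset.range K, w J (k + i)

/-- Without any hypothesis:

(1) there is an absolute constant `C` such that for all `J, K ≥ 1` and all large `N` the average over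
`2^J < n ≤ N` of the distance between the sum of the `K` gaps `δ_n, …, δ_{n+K-1}` and
`K - ∑_{1 ≤ k ≤ 2^J} u_{J,K}(k) ((δ_{n-k} - 1) + (δ_{n+K-1+k} - 1))` is at most
`C (1/√J + K (1 + log K)/J)`;

(2) there are `R` and `c > 0` such that for all large `N` there is `1 ≤ k ≤ R` for which the average
over `R < n ≤ N` of `sgn(δ_n - 1) ((δ_{n-k} - 1) + (δ_{n+k} - 1))` is at most `-c`. -/
theorem result :
    (∃ C : ℝ, 0 < C ∧ ∀ J K : ℕ, 1 ≤ J → 1 ≤ K → ∀ᶠ N : ℕ in atTop,
      (1 / N : ℝ) * ∑ n ∈ Finset.Ioc (2 ^ J) N,
        |∑ i ∈ Finset.range K, (δ (n + i) - 1) + ∑ k ∈ Finset.Icc 1 (2 ^ J),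
          u J K k * ((δ (n - k) - 1) + (δ (n + K - 1 + k) - 1))| ≤
      C * (1 / Real.sqrt J + K * (1 + Real.log K) / J)) ∧
    (∃ (R : ℕ) (c : ℝ), 0 < c ∧ ∀ᶠ N : ℕ in atTop, ∃ k ∈ Finset.Icc 1 R,
      (1 / N : ℝ) * ∑ n ∈ Finset.Ioc R N,
        Real.sign (δ n - 1) * ((δ (n - k) - 1) + (δ (n + k) - 1)) ≤ -c) := by
  have hx : ∀ n, Pool.Agent.Q276.LR.xx n = δ n - 1 := fun n => rfl
  have hw : ∀ J k, Pool.Agent.Q276.LR.wt J k = w J k := fun J k => by
    unfold Pool.Agent.Q276.LR.wt w
    rw [one_div]
  have hu : ∀ J K k, Pool.Agent.Q276.LR.ut J K k = u J K k := fun J K k => by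
    unfold Pool.Agent.Q276.LR.ut u
    rw [one_div]
    simp only [hw]
  constructor
  · obtain ⟨C, hC, h⟩ := Pool.Agent.Q276.UR.blocks_uncond
    refine ⟨C, hC, fun J K hJ hK => ?_⟩
    filter_upwards [h J K hJ hK, eventually_gt_atTop 0] with N hN hN0
    have hN' : (0 : ℝ) < N := by exact_mod_cast hN0
    unfold Pool.Agent.Q276.LR.BB at hN
    simp only [hx, hu] at hN
    rw [one_div, inv_mul_le_iff₀ hN']
    linarith
  · obtain ⟨C, hC, h0⟩ := Pool.Agent.Q276.UR.blocks_uncond
    obtain ⟨R, c, hc, h⟩ := Pool.Agent.Q276.UR.neg_corr_of C hC h0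
    refine ⟨R, c, hc, ?_⟩
    filter_upwards [h, eventually_gt_atTop 0] with N hN hN0
    have hN' : (0 : ℝ) < N := by exact_mod_cast hN0
    obtain ⟨k, hk, h1⟩ := hN
    refine ⟨k, hk, ?_⟩
    simp only [hx] at h1
    rw [one_div, inv_mul_le_iff₀ hN']
    linarith

end Pool.Agent.Results.MP_7eacff_nt.UnconditionalRigidity
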